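import Mathlib
import Pool.Agent.H469R10.ZD.Main

set_option autoImplicit false

/-!
# A negative part which is not supported on a proper subscheme

`X` is the blow-up of `P²`, over any algebraically closed field of characteristic different
from `3`, in the twelve points of the dual Hesse configuration. All notions are spelled out in
`Pool.Agent.H469R10.ZD.Defs`.

The quadratic transformation, the Fourier matrix and a diagonal matrix permute these points, so
that they act on the classes of curves on `X`, and a product of them acts by a map `f` whose
largest eigenvalue `λ = 2 + √3` is irrational. For the sum `A` of six of the exceptional curves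
the big classes `β_n = t_n fⁿ(H + (n+1) A)` have the positive parts `P_n = t_n fⁿ(H)`, and for
suitable `t_n > 0` one has `P_n → 0` and `β_n → α`, where `α` is the eigenvector of `f` for `λ`.
Hence `α = 0 + α` is a Zariski decomposition. The class `α` is nef, `α² = 0`, and it is not in the
cone of finitely many classes of curves: such a curve class `c` would satisfy `c · α = 0`, and
then, as `c` is integral, `c · α' = 0` for the Galois conjugate `α'` of `α`; but `α · α' = 12`.
-/

namespace Pool.Agent.Results.MP_ebe6df_ag.NegativePartUnsupported

open Pool.Agent.H469R10.ZD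

/-- For the blow-up `X` of `P²` in twelve suitable distinct points there are a pseudo-effective
class `α ∈ N_1(X)` and a Zariski decomposition `α = P + N` of it, such that `N` is not the push
forward of a pseudo-effective class of a closed subscheme `W ≠ X`. -/
theorem result (k : Type) [Field k] [IsAlgClosed k] (h3 : (3 : k) ≠ 0) :
    ∃ p : Fin 4 × Fin 3 → Fin 3 → k,
      (∀ i, p i ≠ 0) ∧ (∀ i j, i ≠ j → ∀ c : k, p i ≠ c • p j) ∧
        ∃ α P N : ℝ × (Fin 4 × Fin 3 → ℝ),
          α ∈ Eff p ∧ α = P + N ∧ (α, P) ∈ closure (PosPairs p) ∧ ¬ Supported p N := by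
  obtain ⟨ω, h⟩ : ∃ ω : k, ω ^ 2 + ω + 1 = 0 := by
    have hd : (Polynomial.X ^ 2 + Polynomial.X + 1 : Polynomial k).degree ≠ 0 := by
      have : (Polynomial.X ^ 2 + Polynomial.X + 1 : Polynomial k).degree = 2 := by
        compute_degree!
      rw [this]
      norm_num
    obtain ⟨ω, hω⟩ := IsAlgClosed.exists_root _ hd
    refine ⟨ω, ?_⟩
    simpa [Polynomial.IsRoot] using hω
  have hlim := lim_pairs h h3
  refine ⟨pt ω, pt_ne h, fun i j hij c => pt_distinct h h3 hij c, wp, 0, wp, ?_,
    (zero_add _).symm, hlim, not_supp h h3⟩
  have hsub : PosPairs (pt ω) ⊆ Prod.fst ⁻¹' Eff (pt ω) := by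
    rintro _ ⟨β, P, t, ht, hβ, -, -, -, rfl⟩
    exact clCone_smul (interior_subset hβ) ht.le
  exact closure_minimal hsub ((clCone_closed _).preimage continuous_fst) hlim

end Pool.Agent.Results.MP_ebe6df_ag.NegativePartUnsupported
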